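import Pool.Agent.R130.UltraExp

/-!
# MP_846ee0_co, Q1: the two exponentiations never coincide on nonprincipal ultrafilters
-/

set_option autoImplicit false

namespace Pool.Agent.Results.MP_846ee0_co.NoCoincidence

open Pool.Agent.R130.UltraExp

/-- **For every ultrafilter `p` and every nonprincipal ultrafilter `q` one has
`E₁(p,q) ≠ E₂(p,q)`.** In particular there is no pair of nonprincipal ultrafilters `(p,q)` with
`E₁(p,q) = E₂(p,q)`. -/
theorem result (p q : Ultrafilter ℕ+) (hq : Nonprincipal q) : E₁ p q ≠ E₂ p q :=
  E₁_ne_E₂ p q hq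

end Pool.Agent.Results.MP_846ee0_co.NoCoincidence
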